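import Pool.Agent.H852R2.TE.Defs
import Pool.Agent.H852R2.TE.S.FCOEF
import Pool.Agent.H332R2.EX.OPST

/-!
Task SFTR (helper232): trace bound for powers of `S = F(T) T_b F(T)`.
-/

namespace TE852
open RC14 RC852 Finset
open scoped InnerProductSpace

variable {G : Type*} [Group G]
variable {V : Type*} [NormedAddCommGroup V] [InnerProductSpace ℂ V] [FiniteDimensional ℂ V]

namespace SFTRH

omit [FiniteDimensional ℂ V] in
/-- powers of a linear combination of operators -/
theorem sum_pow_op (ρ : G →* (V ≃ₗᵢ[ℂ] V)) {A : Type*} [Fintype A] (f : A → G) (k : A → ℝ)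
    (N : ℕ) : (∑ a, (k a : ℂ) • op ρ (f a)) ^ N =
      ∑ w : Fin N → A, ((∏ t, k (w t) : ℝ) : ℂ) • op ρ (List.ofFn fun t => f (w t)).prod := by
  induction N with
  | zero => simp [op_one]
  | succ N ih =>
    rw [pow_succ', ih, Finset.sum_mul_sum, ← Fintype.sum_prod_type',
      ← (Fin.consEquiv (fun _ : Fin (N + 1) => A)).sum_comp]
    refine Finset.sum_congr rfl fun p _ => ?_
    rw [smul_mul_smul_comm, ← op_mul]
    simp [Fin.consEquiv, List.ofFn_succ, Fin.prod_univ_succ]

end SFTRH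

/-- trace bound for powers of `S` -/
theorem SFTR {a q : ℕ} (ha : 1 ≤ a) (hq : 1 ≤ q) (ρ : G →* (V ≃ₗᵢ[ℂ] V)) (x : Fin a → G)
    (b : Fin q → G) (M d J : ℕ) (hd : d ≤ M) (P : G → Prop) (β : ℝ) (hβ : 0 ≤ β)
    (hP : ∀ h, ¬ P h → ‖chr ρ h‖ ≤ β * Module.finrank ℂ V) :
    rtr (SF ρ x b M d ^ J) ≤ NF M d ^ (2 * J) *
      (β + (Nat.card {w : Fin J → (Fin (2 * M) → Fin (a + a) × Bool) × (Fin q × Bool) //
          P (bwd (wrd (lz x)) b w)} : ℝ) /
        (Fintype.card ((Fin (2 * M) → Fin (a + a) × Bool) × (Fin q × Bool)) : ℝ) ^ J) *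
        Module.finrank ℂ V := by
  classical
  set D : ℝ := (Module.finrank ℂ V : ℝ) with hD
  have hD0 : 0 ≤ D := by positivity
  have hq0 : (0 : ℝ) < q := by exact_mod_cast hq
  set Kn : ℝ := (Fintype.card (Fin (2 * M) → Fin (a + a) × Bool) : ℝ) with hKn
  set Cn : ℝ := (Fintype.card ((Fin (2 * M) → Fin (a + a) × Bool) × (Fin q × Bool)) : ℝ) with hCn
  have hKn0 : 0 < Kn := by
    rw [hKn]
    have : Nonempty (Fin (2 * M) → Fin (a + a) × Bool) := ⟨fun _ => (⟨0, by omega⟩, true)⟩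
    exact_mod_cast Fintype.card_pos
  have hCK : Cn = Kn * (2 * q) := by
    rw [hCn, hKn, Fintype.card_prod, Fintype.card_prod, Fintype.card_fin, Fintype.card_bool]
    push_cast
    ring
  have hCn0 : 0 < Cn := by rw [hCK]; positivity
  obtain ⟨c, hc, hFF⟩ := FCOEF ha ρ x M d hd
  have hNF0 : 0 ≤ NF M d := Finset.sum_nonneg fun _ _ => by positivity
  set k : (Fin (2 * M) → Fin (a + a) × Bool) × (Fin q × Bool) → ℝ :=
    fun p => c p.1 / (2 * q) with hk
  have hkb : ∀ p, |k p| ≤ NF M d ^ 2 / Cn := by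
    intro p
    rw [hk]
    simp only
    rw [abs_div, abs_of_pos (by positivity : (0 : ℝ) < 2 * q), hCK]
    calc |c p.1| / (2 * q) ≤ NF M d ^ 2 / Kn / (2 * q) :=
          div_le_div_of_nonneg_right (hc p.1) (by positivity)
      _ = NF M d ^ 2 / (Kn * (2 * q)) := by rw [div_div]
  -- the block operator
  have hblock : Tq ρ b * (Fp (Tq ρ (lz x)) M d * Fp (Tq ρ (lz x)) M d) =
      ∑ p : (Fin (2 * M) → Fin (a + a) × Bool) × (Fin q × Bool),
        (k p : ℂ) • op ρ (blk (wrd (lz x)) b p) := by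
    rw [hFF]
    unfold Tq
    rw [smul_mul_assoc, Finset.sum_mul_sum, Finset.sum_comm, ← Fintype.sum_prod_type',
      Finset.smul_sum]
    refine Finset.sum_congr rfl fun p _ => ?_
    rw [mul_smul_comm, ← op_mul, smul_smul, hk]
    congr 1
    push_cast
    ring
  have htr : rtr (SF ρ x b M d ^ J) =
      ∑ w : Fin J → (Fin (2 * M) → Fin (a + a) × Bool) × (Fin q × Bool),
        (∏ t, k (w t)) * (chr ρ (bwd (wrd (lz x)) b w)).re := by
    unfold rtr SF
    rw [mul_assoc, OPST.trace_pow_comm, mul_assoc, hblock, SFTRH.sum_pow_op, map_sum,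
      Complex.re_sum]
    refine Finset.sum_congr rfl fun w _ => ?_
    rw [map_smul, smul_eq_mul, Complex.re_ofReal_mul]
    rfl
  rw [htr]
  have hprod : ∀ w : Fin J → (Fin (2 * M) → Fin (a + a) × Bool) × (Fin q × Bool),
      |∏ t, k (w t)| ≤ (NF M d ^ 2 / Cn) ^ J := by
    intro w
    rw [Finset.abs_prod]
    refine (Finset.prod_le_prod (fun t _ => abs_nonneg _) fun t _ => hkb (w t)).trans ?_
    rw [Finset.prod_const, Finset.card_univ, Fintype.card_fin]
  have hterm : ∀ w : Fin J → (Fin (2 * M) → Fin (a + a) × Bool) × (Fin q × Bool),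
      (∏ t, k (w t)) * (chr ρ (bwd (wrd (lz x)) b w)).re ≤
        (NF M d ^ 2 / Cn) ^ J * (β * D + (if P (bwd (wrd (lz x)) b w) then D else 0)) := by
    intro w
    refine (le_abs_self _).trans ?_
    rw [abs_mul]
    have h1 : |(chr ρ (bwd (wrd (lz x)) b w)).re| ≤
        β * D + (if P (bwd (wrd (lz x)) b w) then D else 0) := by
      refine (Complex.abs_re_le_norm _).trans ?_
      split_ifs with h
      · have := OPST.norm_chr_le ρ (bwd (wrd (lz x)) b w)
        nlinarith [mul_nonneg hβ hD0]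
      · rw [add_zero]
        exact hP _ h
    exact mul_le_mul (hprod w) h1 (abs_nonneg _) (by positivity)
  refine (Finset.sum_le_sum fun w (_ : w ∈ (Finset.univ :
    Finset (Fin J → (Fin (2 * M) → Fin (a + a) × Bool) × (Fin q × Bool)))) => hterm w).trans ?_
  rw [← Finset.mul_sum, Finset.sum_add_distrib, Finset.sum_const, Finset.card_univ,
    ← Finset.sum_filter, Finset.sum_const, nsmul_eq_mul, nsmul_eq_mul, Fintype.card_fun,
    Fintype.card_fin]
  have hcard : (Nat.card {w : Fin J → (Fin (2 * M) → Fin (a + a) × Bool) × (Fin q × Bool) //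
          P (bwd (wrd (lz x)) b w)} : ℝ) =
        (#{w : Fin J → (Fin (2 * M) → Fin (a + a) × Bool) × (Fin q × Bool) |
          P (bwd (wrd (lz x)) b w)} : ℝ) := by
    rw [Nat.card_eq_fintype_card, Fintype.card_subtype]
  rw [hcard]
  push_cast
  rw [← hCn]
  refine le_of_eq ?_
  rw [div_pow, ← pow_mul]
  field_simp

end TE852
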