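import Pool.Agent.H852R2.TE.Defs
import Pool.Agent.H852R2.TE.S.FPOS
import Pool.Agent.H852R2.EX.OPS1

/-!
Task LZEN, SFEN (helper232): the lazy walk operator, symmetry and energy of `S`.
-/

namespace TE852
open RC14 RC852 Finset
open scoped InnerProductSpace

variable {G : Type*} [Group G]
variable {V : Type*} [NormedAddCommGroup V] [InnerProductSpace ℂ V] [FiniteDimensional ℂ V]

namespace SFENH

omit [FiniteDimensional ℂ V]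

theorem En_lz {a : ℕ} (ρ : G →* (V ≃ₗᵢ[ℂ] V)) (x : Fin a → G) (v : V) :
    En ρ (lz x) v = En ρ x v := by
  unfold lz
  rw [En_append]
  have : En ρ (fun _ : Fin a => (1 : G)) v = 0 := by simp [En]
  rw [this, add_zero]

theorem En_le {ι : Type*} [Fintype ι] (ρ : G →* (V ≃ₗᵢ[ℂ] V)) (x : ι → G) (v : V) :
    En ρ x v ≤ 4 * Fintype.card ι * ‖v‖ ^ 2 := by
  unfold En
  have h : ∀ i : ι, ‖ρ (x i) v - v‖ ^ 2 ≤ 4 * ‖v‖ ^ 2 := by
    intro i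
    have h1 := norm_sub_le (ρ (x i) v) v
    rw [(ρ (x i)).norm_map] at h1
    have h2 : ‖ρ (x i) v - v‖ ^ 2 ≤ (‖v‖ + ‖v‖) ^ 2 :=
      pow_le_pow_left₀ (norm_nonneg _) h1 2
    nlinarith
  refine (Finset.sum_le_sum fun i _ => h i).trans ?_
  rw [Finset.sum_const, Finset.card_univ, nsmul_eq_mul]
  exact le_of_eq (by ring)

theorem En_add_le {ι : Type*} [Fintype ι] (ρ : G →* (V ≃ₗᵢ[ℂ] V)) (x : ι → G) (u v : V) :
    En ρ x u ≤ 2 * En ρ x v + 2 * En ρ x (v - u) := by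
  unfold En
  rw [Finset.mul_sum, Finset.mul_sum, ← Finset.sum_add_distrib]
  refine Finset.sum_le_sum fun i _ => ?_
  have h1 : ρ (x i) u - u = (ρ (x i) v - v) - (ρ (x i) (v - u) - (v - u)) := by
    rw [map_sub]; abel
  have h2 := norm_sub_le (ρ (x i) v - v) (ρ (x i) (v - u) - (v - u))
  rw [← h1] at h2
  have h3 : ‖ρ (x i) u - u‖ ^ 2 ≤
      (‖ρ (x i) v - v‖ + ‖ρ (x i) (v - u) - (v - u)‖) ^ 2 :=
    pow_le_pow_left₀ (norm_nonneg _) h2 2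
  nlinarith [sq_nonneg (‖ρ (x i) v - v‖ - ‖ρ (x i) (v - u) - (v - u)‖)]

end SFENH

omit [FiniteDimensional ℂ V] in
/-- the lazy walk operator is between 0 and 1 -/
theorem LZEN' {a : ℕ} (ha : 1 ≤ a) (ρ : G →* (V ≃ₗᵢ[ℂ] V)) (x : Fin a → G) (v : V) :
    0 ≤ (⟪Tq ρ (lz x) v, v⟫_ℂ).re ∧
      (⟪Tq ρ (lz x) v, v⟫_ℂ).re = ‖v‖ ^ 2 - En ρ x v / (4 * a) := by
  have ha0 : (0 : ℝ) < a := by exact_mod_cast ha
  have h1 : (⟪Tq ρ (lz x) v, v⟫_ℂ).re = ‖v‖ ^ 2 - En ρ x v / (4 * a) := by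
    rw [OPS.Tq_energy (by omega) ρ (lz x) v, SFENH.En_lz]
    push_cast
    ring
  refine ⟨?_, h1⟩
  rw [h1]
  have h2 := SFENH.En_le ρ x v
  rw [Fintype.card_fin] at h2
  rw [sub_nonneg, div_le_iff₀ (by positivity)]
  linarith

/-- the lazy walk operator is between 0 and 1 -/
theorem LZEN {a : ℕ} (ha : 1 ≤ a) (ρ : G →* (V ≃ₗᵢ[ℂ] V)) (x : Fin a → G) (v : V) :
    0 ≤ (⟪Tq ρ (lz x) v, v⟫_ℂ).re ∧
      (⟪Tq ρ (lz x) v, v⟫_ℂ).re = ‖v‖ ^ 2 - En ρ x v / (4 * a) := LZEN' ha ρ x v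

/-- symmetry and energy of `S` -/
theorem SFEN {a q : ℕ} (ha : 1 ≤ a) (hq : 1 ≤ q) (ρ : G →* (V ≃ₗᵢ[ℂ] V)) (x : Fin a → G)
    (b : Fin q → G) (M d : ℕ) (hd : d ≤ M) :
    (SF ρ x b M d).IsSymmetric ∧ (∀ v, (⟪SF ρ x b M d v, v⟫_ℂ).re ≤ ‖v‖ ^ 2) ∧
      ∀ v, ‖v‖ ^ 2 - (⟪SF ρ x b M d v, v⟫_ℂ).re ≤
        1 / (q : ℝ) * En ρ b v + 3 / 2 * ((M : ℝ) / (d + 1)) / a * En ρ x v := by
  have ha0 : (0 : ℝ) < a := by exact_mod_cast ha
  have hq0 : (0 : ℝ) < q := by exact_mod_cast hq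
  set T := Tq ρ (lz x) with hTdef
  have hT : T.IsSymmetric := OPS.Tq_symm ρ (lz x)
  have h0 : ∀ v, 0 ≤ (⟪T v, v⟫_ℂ).re := fun v => (LZEN' ha ρ x v).1
  have hE : ∀ v, (⟪T v, v⟫_ℂ).re = ‖v‖ ^ 2 - En ρ x v / (4 * a) := fun v => (LZEN' ha ρ x v).2
  have h1 : ∀ v, (⟪T v, v⟫_ℂ).re ≤ ‖v‖ ^ 2 := by
    intro v
    rw [hE]
    have := En_nonneg ρ x v
    have : 0 ≤ En ρ x v / (4 * a) := by positivity
    linarith
  obtain ⟨hFs, hFn, hF1, hF2⟩ := FPOS T hT h0 h1 M d hd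
  set F := Fp T M d with hFdef
  have hbs := OPS.Tq_symm ρ b
  have hSF : ∀ v, SF ρ x b M d v = F (Tq ρ b (F v)) := fun v => rfl
  have hin : ∀ v, (⟪SF ρ x b M d v, v⟫_ℂ).re = (⟪Tq ρ b (F v), F v⟫_ℂ).re := by
    intro v
    rw [hSF, hFs]
  refine ⟨?_, ?_, ?_⟩
  · intro v w
    rw [hSF, hSF, hFs, hbs, hFs]
  · intro v
    rw [hin]
    refine (Complex.re_le_norm _).trans ?_
    refine (norm_inner_le_norm _ _).trans ?_
    have h2 := OPS.Tq_norm hq ρ b (F v)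
    have h3 := hFn v
    have h4 := norm_nonneg (F v)
    have h5 := norm_nonneg (Tq ρ b (F v))
    have h6 := norm_nonneg v
    calc ‖Tq ρ b (F v)‖ * ‖F v‖ ≤ ‖v‖ * ‖v‖ :=
          mul_le_mul (h2.trans h3) h3 h4 h6
      _ = ‖v‖ ^ 2 := by ring
  · intro v
    rw [hin, OPS.Tq_energy hq]
    have h2 := hF1 v
    have h3 := hF2 v
    have h4 := SFENH.En_add_le ρ b (F v) v
    have h5 := SFENH.En_le ρ b (v - F v)
    rw [Fintype.card_fin] at h5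
    rw [hE] at h2 h3
    have e1 : ‖v‖ ^ 2 - (‖v‖ ^ 2 - En ρ x v / (4 * a)) = En ρ x v / (4 * a) := by ring
    rw [e1] at h2 h3
    have h6 : En ρ b (F v) / (2 * q) ≤ (En ρ b v) / q + 4 * ‖v - F v‖ ^ 2 := by
      rw [div_le_iff₀ (by positivity)]
      have h7 : (En ρ b v / q + 4 * ‖v - F v‖ ^ 2) * (2 * q) =
          2 * En ρ b v + 2 * (4 * q * ‖v - F v‖ ^ 2) := by
        field_simp
      rw [h7]
      linarith
    have e2 : 1 / (q : ℝ) * En ρ b v + 3 / 2 * ((M : ℝ) / (d + 1)) / a * En ρ x v =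
        En ρ b v / q + (2 * ((M : ℝ) / (d + 1)) * (En ρ x v / (4 * a)) +
          4 * ((M : ℝ) / (d + 1) * (En ρ x v / (4 * a)))) := by
      field_simp
      ring
    rw [e2]
    linarith

end TE852
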