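import Pool.Agent.H852R2.TE.Defs
import Pool.Agent.H36R2.EX.FIXCNT

/-!
Task FIXCNT2 (helper232): as `FIXCNT` of helper36, only the points with a nondegenerate trajectory
are counted.
-/

namespace TE852.FIXCNT2H
open RC14 RC852 RC852.FIXCNT Finset

variable {n q : ℕ} {K : Type*} (g : K → Equiv.Perm (Fin n))

open Classical in
theorem exists_t {J F : ℕ} (hJ : 1 ≤ J) (w : Fin J → K × (Fin q × Bool))
    (b : Fin q → Equiv.Perm (Fin n))
    (hF : F ≤ #{p : Fin n | bwd g b w p = p ∧ 3 * J ≤ 4 * dst g b (List.ofFn w) p}) :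
    ∃ t : Fin J, (F + 1) / 2 ≤ #{p : Fin n |
      Uq g ((List.ofFn w).take t) ((List.ofFn w).drop (t + 1)) b (w t) p} := by
  by_contra hcon
  push Not at hcon
  have hbw : ∀ p, bwd g b w p = posn g b (List.ofFn w) p := by
    intro p
    rw [bwd, posn, List.map_ofFn]
    rfl
  -- double counting
  have h1 : ∀ p, posn g b (List.ofFn w) p = p → 3 * J ≤ 4 * dst g b (List.ofFn w) p →
      J ≤ 2 * #{t : Fin J |
      Uq g ((List.ofFn w).take t) ((List.ofFn w).drop (t + 1)) b (w t) p} := by
    intro p hp h3
    have h2 := UNIQ (edg g b (List.ofFn w) p)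
    have hl : (edg g b (List.ofFn w) p).length = J := by
      rw [length_edg, List.length_ofFn]
    have h4 : #{s : Fin (edg g b (List.ofFn w) p).length |
        (edg g b (List.ofFn w) p).count ((edg g b (List.ofFn w) p).get s) = 1} ≤
        #{t : Fin J | Uq g ((List.ofFn w).take t) ((List.ofFn w).drop (t + 1)) b (w t) p} := by
      refine Finset.card_le_card_of_injOn (Fin.cast hl) ?_ (fun s _ s' _ h => ?_)
      · intro s hs
        rw [Finset.mem_coe, Finset.mem_filter] at hs ⊢
        exact ⟨Finset.mem_univ _, uq_of_count g w b p hp (Fin.cast hl s) s rfl hs.2⟩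
      · exact Fin.cast_injective hl h
    rw [dst] at h3
    have h5 : 2 * (edg g b (List.ofFn w) p).toFinset.card ≤ (edg g b (List.ofFn w) p).length +
        #{s : Fin (edg g b (List.ofFn w) p).length |
        (edg g b (List.ofFn w) p).count ((edg g b (List.ofFn w) p).get s) = 1} := by
      convert h2
    omega
  set S : Finset (Fin n) :=
    {p : Fin n | bwd g b w p = p ∧ 3 * J ≤ 4 * dst g b (List.ofFn w) p} with hS
  have h5 : J * #S ≤ 2 * ∑ t : Fin J, #{p : Fin n |
      Uq g ((List.ofFn w).take t) ((List.ofFn w).drop (t + 1)) b (w t) p} := by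
    have h6 : ∑ t : Fin J, #{p : Fin n |
        Uq g ((List.ofFn w).take t) ((List.ofFn w).drop (t + 1)) b (w t) p} =
        ∑ p : Fin n, #{t : Fin J |
          Uq g ((List.ofFn w).take t) ((List.ofFn w).drop (t + 1)) b (w t) p} := by
      simp only [Finset.card_filter]
      rw [Finset.sum_comm]
    rw [h6, Finset.mul_sum, mul_comm, ← smul_eq_mul, ← Finset.sum_const]
    refine (Finset.sum_le_sum (g := fun p => 2 * #{t : Fin J |
          Uq g ((List.ofFn w).take t) ((List.ofFn w).drop (t + 1)) b (w t) p}) ?_).trans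
      (Finset.sum_le_sum_of_subset (Finset.subset_univ _))
    intro p hp
    rw [hS, Finset.mem_filter] at hp
    exact h1 p (by rw [← hbw]; exact hp.2.1) hp.2.2
  have h7 : ∑ t : Fin J, #{p : Fin n |
      Uq g ((List.ofFn w).take t) ((List.ofFn w).drop (t + 1)) b (w t) p} ≤
      ∑ _t : Fin J, ((F + 1) / 2 - 1) :=
    Finset.sum_le_sum fun t _ => by have := hcon t; omega
  rw [Finset.sum_const, Finset.card_univ, Fintype.card_fin, smul_eq_mul] at h7
  have h8 := hcon ⟨0, by omega⟩
  have hF1 : 2 * ((F + 1) / 2 - 1) + 1 ≤ F := by omega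
  have h9 : J * F ≤ J * #S := Nat.mul_le_mul_left _ hF
  have h10 : J * (2 * ((F + 1) / 2 - 1) + 1) ≤ J * F := Nat.mul_le_mul_left _ hF1
  nlinarith

end TE852.FIXCNT2H

namespace TE852
open RC14 RC852 Finset Filter Equiv RC852.FIXCNT

/-- as `FIXCNT`, but only the points with a nondegenerate trajectory are counted -/
theorem FIXCNT2 (n q J F f K' : ℕ) (hJ : 1 ≤ J) (hf : Odd f) {K : Type*} [Fintype K]
    (g : K → Equiv.Perm (Fin n)) (w : Fin J → K × (Fin q × Bool))
    (hF : 4 * (f * (3 * J + 1) + K') ≤ F) :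
    Nat.card {b : Fin q → Alt n //
      F ≤ #{p : Fin n | bwd g (fun i => (b i : Equiv.Perm (Fin n))) w p = p ∧
        3 * J ≤ 4 * dst g (fun i => (b i : Equiv.Perm (Fin n))) (List.ofFn w) p}} * K' ^ f ≤
        Fintype.card (Alt n) ^ q * (J * n) := by
  classical
  set P : Fin J → (Fin q → Alt n) → Prop := fun t b => (F + 1) / 2 ≤ #{p : Fin n |
      Uq g ((List.ofFn w).take t) ((List.ofFn w).drop (t + 1))
        (fun i => (b i : Equiv.Perm (Fin n))) (w t) p} with hP
  -- one `t`
  have h1 : ∀ t, Nat.card {b : Fin q → Alt n // P t b} * K' ^ f ≤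
      Fintype.card (Alt n) ^ q * n := by
    intro t
    have h2 := card_update (w t).2.1 (P t)
    have h3 : ∀ b : Fin q → Alt n,
        Nat.card {β : Alt n // P t (Function.update b (w t).2.1 β)} * K' ^ f ≤
          Fintype.card (Alt n) * n := by
      intro b
      have h4 := perT g (fun i => (b i : Equiv.Perm (Fin n))) ((List.ofFn w).take t)
        ((List.ofFn w).drop (t + 1)) f K' ((F + 1) / 2) J hf (w t)
        (by
          rw [List.length_take, List.length_drop, List.length_ofFn]
          omega) (by omega)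
      have h5 : ∀ β : Alt n, (fun i => ((Function.update b (w t).2.1 β i : Alt n) :
          Equiv.Perm (Fin n))) = Function.update (fun i => (b i : Equiv.Perm (Fin n))) (w t).2.1
            (β : Equiv.Perm (Fin n)) := by
        intro β
        funext j
        by_cases hj : j = (w t).2.1
        · subst hj; simp
        · simp [hj]
      simp only [hP, h5]
      convert h4
    have h6 : Fintype.card (Alt n) * (Nat.card {b : Fin q → Alt n // P t b} * K' ^ f) ≤
        Fintype.card (Alt n) * (Fintype.card (Alt n) ^ q * n) := by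
      rw [← mul_assoc, ← h2, Finset.sum_mul]
      refine (Finset.sum_le_sum fun b _ => h3 b).trans ?_
      rw [Finset.sum_const, Finset.card_univ, Fintype.card_fun, Fintype.card_fin, smul_eq_mul]
      exact le_of_eq (by ring)
    exact Nat.le_of_mul_le_mul_left h6 Fintype.card_pos
  -- union
  have h7 : Nat.card {b : Fin q → Alt n //
      F ≤ #{p : Fin n | bwd g (fun i => (b i : Equiv.Perm (Fin n))) w p = p ∧
        3 * J ≤ 4 * dst g (fun i => (b i : Equiv.Perm (Fin n))) (List.ofFn w) p}} ≤
      ∑ t : Fin J, Nat.card {b : Fin q → Alt n // P t b} := by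
    simp only [Nat.card_eq_fintype_card, Fintype.card_subtype]
    refine (Finset.card_le_card ?_).trans Finset.card_biUnion_le
    intro b hb
    rw [Finset.mem_filter] at hb
    obtain ⟨t, ht⟩ := FIXCNT2H.exists_t (F := F) g hJ w (fun i => (b i : Equiv.Perm (Fin n)))
      (by convert hb.2)
    rw [Finset.mem_biUnion]
    refine ⟨t, Finset.mem_univ _, ?_⟩
    rw [Finset.mem_filter]
    refine ⟨Finset.mem_univ _, ?_⟩
    simp only [hP]
    convert ht
  calc _ ≤ (∑ t : Fin J, Nat.card {b : Fin q → Alt n // P t b}) * K' ^ f :=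
        Nat.mul_le_mul_right _ h7
    _ ≤ ∑ _t : Fin J, Fintype.card (Alt n) ^ q * n := by
        rw [Finset.sum_mul]
        exact Finset.sum_le_sum fun t _ => h1 t
    _ = Fintype.card (Alt n) ^ q * (J * n) := by
        rw [Finset.sum_const, Finset.card_univ, Fintype.card_fin, smul_eq_mul]
        ring

end TE852
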