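import Pool.Agent.H852R2.TE.Defs
import Pool.Agent.H852R2.TE.S.CNTE
import Pool.Agent.H120R2.RC.CHAR

namespace TE852
open RC14 RC852 Finset Filter Equiv

theorem RTEH.rp (x z : ℝ) (hx : 0 ≤ x) (hz : 0 ≤ z) (k j : ℕ) (hk : 1 ≤ k) (h : x ≤ z ^ k) :
    x ^ ((j : ℝ) / (k : ℝ)) ≤ z ^ j := by
  have hk0 : (0 : ℝ) < k := by exact_mod_cast hk
  calc x ^ ((j : ℝ) / (k : ℝ)) ≤ (z ^ k) ^ ((j : ℝ) / (k : ℝ)) :=
        Real.rpow_le_rpow hx h (by positivity)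
    _ = z ^ j := by
        rw [← Real.rpow_natCast z k, ← Real.rpow_mul hz, mul_div_cancel₀ _ hk0.ne',
          Real.rpow_natCast]

/-- character bound on all levels `j ≤ n^{1-2δ}` -/
theorem RTE (δ : ℝ) (hδ : 0 < δ) (hδ1 : δ ≤ 1 / 8) : ∀ᶠ n : ℕ in atTop,
    ∀ j : ℕ, 1 ≤ j → (j : ℝ) ≤ (n : ℝ) ^ (1 - 2 * δ) →
    ∀ (W : Submodule ℂ (V j n)) (hW : Inv (repA j n) W), W ≤ Lvl j n →
    ∀ g : Alt n, nfix (g : Perm (Fin n)) ≤ 2 * FE δ n →
      ‖rchr (repA j n) W hW g‖ ≤ ((n : ℝ) ^ (-(δ / 10))) ^ j * Module.finrank ℂ W := by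
  have hT := ((tendsto_rpow_atTop (by positivity : 0 < δ / 40)).comp
    (tendsto_natCast_atTop_atTop (R := ℝ))).eventually_ge_atTop 12
  filter_upwards [hT, eventually_ge_atTop 12] with n hn hn12
  intro j hj1 hj W hW hL g hg
  simp only [Function.comp] at hn
  have hN12 : (12 : ℝ) ≤ n := by exact_mod_cast hn12
  have hN0 : (0 : ℝ) < n := by linarith
  set N : ℝ := (n : ℝ) with hNdef
  set w : ℝ := N ^ (-(δ / 8)) with hw
  have hw0 : 0 < w := Real.rpow_pos_of_pos hN0 _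
  -- `12 w ≤ N^{-δ/10}`
  have hw12 : 12 * w ≤ N ^ (-(δ / 10)) := by
    have : N ^ (-(δ / 10)) = N ^ (δ / 40) * w := by
      rw [hw, ← Real.rpow_add hN0]; congr 1; ring
    rw [this]
    exact mul_le_mul_of_nonneg_right hn hw0.le
  have hp1 : N ^ (-(δ / 10)) ≤ 1 := Real.rpow_le_one_of_one_le_of_nonpos (by linarith) (by linarith)
  have hw1 : w ≤ 1 / 12 := by linarith
  have e1 : N ^ (1 - 2 * δ) = N * w ^ 16 := by
    rw [hw, ← Real.rpow_natCast, ← Real.rpow_mul hN0.le]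
    nth_rewrite 2 [← Real.rpow_one N]
    rw [← Real.rpow_add hN0]; congr 1; push_cast; ring
  have e2 : N ^ (1 - δ / 2) = N * w ^ 4 := by
    rw [hw, ← Real.rpow_natCast, ← Real.rpow_mul hN0.le]
    nth_rewrite 2 [← Real.rpow_one N]
    rw [← Real.rpow_add hN0]; congr 1; push_cast; ring
  have hw16 : w ^ 16 ≤ 1 / 12 := by
    calc w ^ 16 ≤ w ^ 1 := pow_le_pow_of_le_one hw0.le (by linarith) (by norm_num)
      _ ≤ 1 / 12 := by simpa using hw1
  have hw4 : w ^ 4 ≤ 1 / 12 := by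
    calc w ^ 4 ≤ w ^ 1 := pow_le_pow_of_le_one hw0.le (by linarith) (by norm_num)
      _ ≤ 1 / 12 := by simpa using hw1
  rw [e1] at hj
  have hjN : (j : ℝ) ≤ N / 12 := by nlinarith
  have hjn : j ≤ n := by
    have : (j : ℝ) ≤ n := by linarith
    exact_mod_cast this
  have hj22 : 2 * j + 2 ≤ n := by
    have : (2 * (j : ℝ) + 2) ≤ n := by linarith
    exact_mod_cast this
  have hDc : ((n - j : ℕ) : ℝ) = N - j := by rw [Nat.cast_sub hjn]
  have hD : N / 2 ≤ ((n - j : ℕ) : ℝ) := by rw [hDc]; linarith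
  have hD0 : (0 : ℝ) < ((n - j : ℕ) : ℝ) := by linarith
  have hFE : ((2 * FE δ n : ℕ) : ℝ) ≤ 4 * (N * w ^ 4) := by
    have h1 : (FE δ n : ℝ) ≤ N ^ (1 - δ / 2) + 1 := by
      unfold FE
      exact (Nat.ceil_lt_add_one (by positivity)).le
    have h2 : (1 : ℝ) ≤ N ^ (1 - δ / 2) := Real.one_le_rpow (by linarith) (by linarith)
    rw [← e2]
    push_cast
    linarith
  have hFn : 2 * FE δ n ≤ n - j := by
    have : ((2 * FE δ n : ℕ) : ℝ) ≤ ((n - j : ℕ) : ℝ) := by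
      refine hFE.trans ?_
      rw [hDc]
      nlinarith
    exact_mod_cast this
  have hjD : (j : ℝ) / ((n - j : ℕ) : ℝ) ≤ 2 * w ^ 16 := by
    rw [div_le_iff₀ hD0]
    have : 2 * w ^ 16 * (N / 2) ≤ 2 * w ^ 16 * ((n - j : ℕ) : ℝ) :=
      mul_le_mul_of_nonneg_left hD (by positivity)
    linarith
  have hFD : ((2 * FE δ n : ℕ) : ℝ) / ((n - j : ℕ) : ℝ) ≤ 8 * w ^ 4 := by
    rw [div_le_iff₀ hD0]
    have : 8 * w ^ 4 * (N / 2) ≤ 8 * w ^ 4 * ((n - j : ℕ) : ℝ) :=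
      mul_le_mul_of_nonneg_left hD (by positivity)
    linarith
  have hjD0 : 0 ≤ (j : ℝ) / ((n - j : ℕ) : ℝ) := by positivity
  have hFD0 : 0 ≤ ((2 * FE δ n : ℕ) : ℝ) / ((n - j : ℕ) : ℝ) := by positivity
  have hz0 : 0 ≤ 2 * w := by positivity
  have t1 : ((j : ℝ) / ((n - j : ℕ) : ℝ)) ^ ((j : ℝ) / 2) ≤ (2 * w) ^ j := by
    have := RTEH.rp _ (2 * w) hjD0 hz0 2 j (by norm_num) (hjD.trans ?_)
    · simpa using this
    · have : w ^ 16 ≤ w ^ 2 := pow_le_pow_of_le_one hw0.le (by linarith) (by norm_num)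
      have h3 : (2 * w) ^ 2 = 4 * w ^ 2 := by ring
      rw [h3]
      have : 0 < w ^ 2 := by positivity
      linarith
  have t2 : (((2 * FE δ n : ℕ) : ℝ) / ((n - j : ℕ) : ℝ)) ^ ((j : ℝ) / 4) ≤ (2 * w) ^ j := by
    have := RTEH.rp _ (2 * w) hFD0 hz0 4 j (by norm_num) (hFD.trans ?_)
    · simpa using this
    · have h3 : (2 * w) ^ 4 = 16 * w ^ 4 := by ring
      rw [h3]
      have : 0 < w ^ 4 := by positivity
      linarith
  have t3 : ((j : ℝ) / ((n - j : ℕ) : ℝ)) ^ ((j : ℝ) / 12) ≤ (2 * w) ^ j := by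
    have := RTEH.rp _ (2 * w) hjD0 hz0 12 j (by norm_num) (hjD.trans ?_)
    · simpa using this
    · have : w ^ 16 ≤ w ^ 12 := pow_le_pow_of_le_one hw0.le (by linarith) (by norm_num)
      have h3 : (2 * w) ^ 12 = 4096 * w ^ 12 := by ring
      rw [h3]
      have : 0 < w ^ 12 := by positivity
      linarith
  have a := CH1 j n hj22 W hW hL g
  have b := CNTE j n (2 * FE δ n) hj1 hj22 hFn (g : Perm (Fin n)) hg
  have hX : (0 : ℝ) < Fintype.card (Tup j n) := by exact_mod_cast card_Tup_pos (by omega)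
  have hd : (0 : ℝ) ≤ Module.finrank ℂ W := by positivity
  have key : ((j : ℝ) / ((n - j : ℕ) : ℝ)) ^ ((j : ℝ) / 2) +
          2 ^ j * (((2 * FE δ n : ℕ) : ℝ) / ((n - j : ℕ) : ℝ)) ^ ((j : ℝ) / 4) +
          2 ^ j * ((j : ℝ) / ((n - j : ℕ) : ℝ)) ^ ((j : ℝ) / 12) ≤ (N ^ (-(δ / 10))) ^ j := by
    have h2j : (1 : ℝ) ≤ 2 ^ j := one_le_pow₀ (by norm_num)
    have hpos : 0 ≤ (2 * w) ^ j := by positivity
    have h3 : (3 : ℝ) ≤ 3 ^ j := by
      calc (3 : ℝ) = 3 ^ 1 := by norm_num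
        _ ≤ 3 ^ j := pow_le_pow_right₀ (by norm_num) hj1
    calc _ ≤ 2 ^ j * (2 * w) ^ j + 2 ^ j * (2 * w) ^ j + 2 ^ j * (2 * w) ^ j := by
          have u1 : (2 * w) ^ j ≤ 2 ^ j * (2 * w) ^ j := le_mul_of_one_le_left hpos h2j
          have u2 := mul_le_mul_of_nonneg_left t2 (by positivity : (0 : ℝ) ≤ 2 ^ j)
          have u3 := mul_le_mul_of_nonneg_left t3 (by positivity : (0 : ℝ) ≤ 2 ^ j)
          linarith
      _ = 3 * (2 ^ j * (2 * w) ^ j) := by ring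
      _ ≤ 3 ^ j * (2 ^ j * (2 * w) ^ j) := mul_le_mul_of_nonneg_right h3 (by positivity)
      _ = (12 * w) ^ j := by
          rw [← mul_pow, ← mul_pow]; congr 1; ring
      _ ≤ _ := pow_le_pow_left₀ (by positivity) hw12 j
  have c : ‖rchr (repA j n) W hW g‖ * Fintype.card (Tup j n) ≤
      ((N ^ (-(δ / 10))) ^ j * Module.finrank ℂ W) * Fintype.card (Tup j n) := by
    refine a.trans ?_
    refine (mul_le_mul_of_nonneg_left (b.trans (mul_le_mul_of_nonneg_left key hX.le)) hd).trans ?_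
    apply le_of_eq
    ring
  exact le_of_mul_le_mul_right c hX

end TE852
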